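import Mathlib
import Pool.Agent.Lib.MP_d1eed2_pr.Space

/-!
# A decomposable forward Brownian motion with bounded pieces that is not a backward one

The process `X` is put together from independent pieces.  All pieces have duration `1` except
piece number `-κ_m` (`m ≥ 1`), where the gaps between consecutive exceptional pieces grow.  The
exceptional pieces last until the first time `t ≥ 1` with `B_t - B_{t-1} ≥ h`, capped at `3`.

If the path could be reversed at a random time `R ≥ 0`, the reversed path would be a Brownian motion,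
and the exceptional times, read backwards, would separate for ever two walkers driven by this
Brownian motion.  These walkers meet almost surely.
-/

open MeasureTheory ProbabilityTheory Filter Topology
open scoped NNReal ENNReal

namespace Pool.Agent.Results.MP_d1eed2_pr.BoundedPiecesNotBBM

open Pool.Agent.Lib.MP_d1eed2_pr

/-- `X`, indexed by the real line, is a **forward Brownian motion** (FBM): there are random times
`S n`, `n ≤ 0`, with `S n → -∞` almost surely as `n → -∞` such that, for each `n ≤ 0`, the process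
`X (S n + t) - X (S n)`, `t ≥ 0`, is a Brownian motion. -/
def IsFBM {Ω : Type} [MeasurableSpace Ω] (X : ℝ → Ω → ℝ) (P : Measure Ω) : Prop :=
  ∃ S : ℤ → Ω → ℝ, (∀ n ≤ 0, Measurable (S n)) ∧
    (∀ᵐ ω ∂P, Tendsto (fun n : ℤ => S n ω) atBot atBot) ∧
    ∀ n ≤ 0, IsBrownianReal (fun (t : ℝ≥0) ω => X (S n ω + t) ω - X (S n ω) ω) P

/-- `X` is a **backward Brownian motion** (BBM): the time reversed process is an FBM. -/
def IsBBM {Ω : Type} [MeasurableSpace Ω] (X : ℝ → Ω → ℝ) (P : Measure Ω) : Prop :=
  IsFBM (fun t ω => X (-t) ω) P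

/-- The **decomposition** of a decomposable process `X` (with `U = 0`): for each integer `k`,
`B k` is a Brownian motion with respect to the normal filtration `F k` and `T k` is a finite
stopping time of `F k`; the pairs (`T k`, path of `B k` up to time `T k`) are independent; the
durations `T k` sum to infinity on both sides; `S 0 = 0`, `S (k+1) - S k = T k`; and `X` is the
continuous process with `X 0 = 0` and `X (S k + t) - X (S k) = B k t` for `0 ≤ t < T k`. -/
structure IsDecomposition {Ω : Type} {m : MeasurableSpace Ω} (P : Measure Ω)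
    (F : ℤ → Filtration ℝ≥0 m) (B : ℤ → ℝ≥0 → Ω → ℝ) (T : ℤ → Ω → ℝ≥0)
    (S : ℤ → Ω → ℝ) (X : ℝ → Ω → ℝ) : Prop where
  /-- the probability space is complete -/
  complete : P.IsComplete
  /-- the filtrations are right-continuous -/
  right_cont : ∀ k, (F k).IsRightContinuous
  /-- the filtrations contain the null sets -/
  null : ∀ (k : ℤ) (A : Set Ω), P A = 0 → MeasurableSet[F k 0] A
  /-- `B k` is adapted to `F k` -/
  adapted : ∀ (k : ℤ) (t : ℝ≥0), Measurable[F k t] (B k t)
  /-- `B k` is a Brownian motion -/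
  brownian : ∀ k, IsBrownianReal (B k) P
  /-- the increments of `B k` after time `s` are independent of `F k s` -/
  increments : ∀ (k : ℤ) (s t : ℝ≥0), s ≤ t →
    Indep (F k s) (MeasurableSpace.comap (fun ω => B k t ω - B k s ω) inferInstance) P
  /-- `T k` is a stopping time -/
  stopping : ∀ k, IsStoppingTime (F k) (fun ω => (T k ω : WithTop ℝ≥0))
  /-- the pieces are independent -/
  indep : iIndepFun (fun (k : ℤ) ω => (T k ω, fun t : ℝ≥0 => B k (min t (T k ω)) ω)) P
  /-- `∑_{k ≥ 1} T k = ∞` -/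
  sum_pos : ∀ᵐ ω ∂P, ∑' n : ℕ, (T ((n : ℤ) + 1) ω : ℝ≥0∞) = ∞
  /-- `∑_{k ≤ -1} T k = ∞` -/
  sum_neg : ∀ᵐ ω ∂P, ∑' n : ℕ, (T (-((n : ℤ) + 1)) ω : ℝ≥0∞) = ∞
  /-- `S 0 = 0` -/
  start : ∀ ω, S 0 ω = 0
  /-- `S (k+1) - S k = T k` -/
  step : ∀ (k : ℤ) (ω : Ω), S (k + 1) ω - S k ω = T k ω
  /-- `X t` is a random variable -/
  meas : ∀ t, Measurable (X t)
  /-- `X` has continuous paths -/
  cont : ∀ ω, Continuous fun t => X t ω
  /-- `X 0 = 0` -/
  zero : ∀ ω, X 0 ω = 0
  /-- the increments of `X` on the piece number `k` are those of `B k` -/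
  piece : ∀ (k : ℤ) (ω : Ω) (t : ℝ≥0), t < T k ω → X (S k ω + t) ω - X (S k ω) ω = B k t ω

/-- There is a decomposable forward Brownian motion, all of whose pieces have duration at
most `3`, that is not a backward Brownian motion. -/
theorem result :
    ∃ (Ω : Type) (m : MeasurableSpace Ω) (P : Measure Ω) (F : ℤ → Filtration ℝ≥0 m)
      (B : ℤ → ℝ≥0 → Ω → ℝ) (T : ℤ → Ω → ℝ≥0) (S : ℤ → Ω → ℝ) (X : ℝ → Ω → ℝ),
      IsProbabilityMeasure P ∧ IsDecomposition P F B T S X ∧ (∀ k ω, T k ω ≤ 3) ∧
      IsFBM X P ∧ ¬ IsBBM X P := by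
  obtain ⟨h, _, hpr⟩ := exists_level
  set N : ℕ → ℕ := fun i => 3 * i with hNdef
  have hN : ∀ c : ℝ, ∃ m₀, ∀ i, m₀ ≤ i → c + 2 * i ≤ N i := by
    intro c
    obtain ⟨m₀, hm₀⟩ := exists_nat_ge c
    refine ⟨m₀, fun i hi => ?_⟩
    have : (m₀ : ℝ) ≤ i := by exact_mod_cast hi
    simp only [hNdef]
    push_cast
    linarith
  have htop : ∀ (f : ℕ → ℝ≥0), (∀ n, 1 ≤ f n) → ∑' n, (f n : ℝ≥0∞) = ∞ := by
    intro f hf
    have h1 : ∑' _ : ℕ, (1 : ℝ≥0∞) = ∞ := ENNReal.tsum_const_eq_top_of_ne_zero one_ne_zero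
    rw [← top_le_iff, ← h1]
    exact ENNReal.tsum_le_tsum fun n => by exact_mod_cast hf n
  refine ⟨Om, inferInstance, PP, FF, BB, TT h N EE, SS h N EE, XX h N EE, inferInstance,
    ?_, ?_, ?_, ?_⟩
  · exact
    { complete := inferInstance
      right_cont := fun k => filt_rc (BB_cont k) (BB_meas k)
      null := fun k A hA => filt_null (BB_cont k) (BB_meas k) hA 0
      adapted := fun k t => filt_adapted (BB_cont k) (BB_meas k) t
      brownian := fun k => ⟨BB_pre k, Eventually.of_forall (BB_cont k)⟩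
      increments := fun k s t hst => filt_indep (BB_cont k) (BB_meas k) (BB_pre k) hst
      stopping := stopping h N
      indep := indep_pieces h N
      sum_pos := Eventually.of_forall fun ω => htop _ fun n => one_le_TT _ _
      sum_neg := Eventually.of_forall fun ω => htop _ fun n => one_le_TT _ _
      start := fun ω => Sd_zero
      step := fun k ω => by rw [SS_succ]; ring
      meas := measurable_XX h N
      cont := XX_cont EE_zero
      zero := fun ω => Xd_zero (fun k => one_le_TT k ω) (fun k => EE_zero k ω)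
      piece := fun k ω t ht => XX_piece EE_zero k ω ht.le }
  · intro k ω
    exact rule_le _ _
  · refine ⟨SS h N EE, fun n _ => measurable_SS h N n, Eventually.of_forall fun ω => ?_,
      fun n _ => ⟨forward EE_zero measurable_EE iIndepFun_EE map_EE n,
        Eventually.of_forall fun ω => ?_⟩⟩
    · have hle : (fun n : ℤ => SS h N EE n ω) ≤ᶠ[atBot] fun n : ℤ => (n : ℝ) := by
        filter_upwards [eventually_le_atBot (0 : ℤ)] with n hn
        exact Sd_le (fun k => one_le_TT k ω) hn
      exact tendsto_atBot_mono' atBot hle (tendsto_intCast_atBot_iff.2 tendsto_id)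
    · have := XX_cont (h := h) (N := N) EE_zero ω
      fun_prop
  · rintro ⟨S', _, hS', hB'⟩
    have h1 : ∀ n : ℤ, n ≤ 0 → PP {ω | 0 ≤ -S' n ω} = 0 := by
      intro n hn
      refine no_backward (h := h) (N := N) EE_zero hpr hN (R := fun ω => -S' n ω) ?_
      refine (hB' n hn).toIsPreBrownianReal.congr fun t => Eventually.of_forall fun ω => ?_
      simp only
      rw [neg_add, sub_eq_add_neg (-S' n ω) (t : ℝ)]
    have h2 : PP (⋃ n : ℕ, {ω | 0 ≤ -S' (-(n : ℤ)) ω}) = 0 :=
      measure_iUnion_null fun n => h1 _ (by omega)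
    have h3 : ∀ᵐ ω ∂PP, ω ∉ ⋃ n : ℕ, {ω | 0 ≤ -S' (-(n : ℤ)) ω} := by
      rw [← measure_eq_zero_iff_ae_notMem]
      exact h2
    obtain ⟨ω, hω, hω'⟩ := (hS'.and h3).exists
    apply hω'
    obtain ⟨n, hn1, hn2⟩ := ((hω.eventually (eventually_le_atBot (0:ℝ))).and
      (eventually_le_atBot (0:ℤ))).exists
    refine Set.mem_iUnion.2 ⟨n.natAbs, ?_⟩
    have e : -(n.natAbs : ℤ) = n := by omega
    simp only [Set.mem_ofPred_eq, e]
    linarith

end Pool.Agent.Results.MP_d1eed2_pr.BoundedPiecesNotBBM
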